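import Pool.Agent.Q238.Chomp.Points

/-!
The Ideal Chomp Game: in every Krull dimension there is a Noetherian domain on which the second
player has a winning strategy.
-/

namespace Pool.Agent.Results.MP_ba75bf_co.EveryDimension

/-- The ideal `I_n` after the first `n` moves `x 0, …, x (n-1)`. -/
def idealAfter {R : Type} [CommRing R] (x : ℕ → R) (n : ℕ) : Ideal R :=
  Ideal.span {y | ∃ i < n, y = x i}

/-- Player `B` (the second player) has a winning strategy in the Ideal Chomp Game on `R`: there is
a function `σ` from finite lists of previous moves to `R` such that for every sequence of moves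
`x 0, x 1, x 2, …` in which `A` makes the moves of even index, legally as long as the game is not
over, and `B` makes the moves of odd index following `σ` as long as the game is not over, some move
of `A` produces the ideal `R`, and all earlier moves of `B` were legal and the game was not over
before. -/
def BWins (R : Type) [CommRing R] : Prop :=
  ∃ σ : List R → R, ∀ x : ℕ → R,
    (∀ n, Even n → idealAfter x n ≠ ⊤ → x n ∉ idealAfter x n) →
    (∀ n, Odd n → idealAfter x n ≠ ⊤ → x n = σ (List.ofFn fun i : Fin n => x i)) →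
    ∃ n, Even n ∧ idealAfter x n ≠ ⊤ ∧ idealAfter x (n + 1) = ⊤ ∧
      ∀ m < n, Odd m → x m ∉ idealAfter x m

theorem idealAfter_zero {R : Type} [CommRing R] (x : ℕ → R) : idealAfter x 0 = ⊥ := by
  unfold idealAfter
  simp

theorem idealAfter_succ {R : Type} [CommRing R] (x : ℕ → R) (n : ℕ) :
    idealAfter x (n + 1) = idealAfter x n ⊔ Ideal.span {x n} := by
  unfold idealAfter
  rw [← Ideal.span_union]
  congr 1
  ext y
  simp only [Set.mem_ofPred_eq, Set.mem_union, Set.mem_singleton_iff]
  constructor
  · rintro ⟨i, hi, rfl⟩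
    by_cases h : i = n
    · right; rw [h]
    · left; exact ⟨i, by omega, rfl⟩
  · rintro (⟨i, hi, rfl⟩ | rfl)
    · exact ⟨i, by omega, rfl⟩
    · exact ⟨n, by omega, rfl⟩

/-- `B` wins in at most one move of his own when he can always answer with a maximal ideal. -/
theorem bWins_of_answer (R : Type) [CommRing R] [Nontrivial R]
    (h : ∀ a : R, a ≠ 0 → ¬ IsUnit a → ∃ b : R, b ∉ Ideal.span {a} ∧
      (Ideal.span {a} ⊔ Ideal.span {b}).IsMaximal) : BWins R := by
  classical
  set β : R → R := fun a => if ha : a ≠ 0 ∧ ¬ IsUnit a then (h a ha.1 ha.2).choose else 0 with hβ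
  have hβ' : ∀ a : R, a ≠ 0 → ¬ IsUnit a → β a ∉ Ideal.span {a} ∧
      (Ideal.span {a} ⊔ Ideal.span {β a}).IsMaximal := by
    intro a h0 h1
    have ha : a ≠ 0 ∧ ¬ IsUnit a := ⟨h0, h1⟩
    have : β a = (h a h0 h1).choose := by
      simp only [hβ]
      rw [dif_pos ha]
    rw [this]
    exact (h a h0 h1).choose_spec
  refine ⟨fun l => β (l.headD 0), ?_⟩
  intro x hA hB
  have e0 : idealAfter x 0 = ⊥ := idealAfter_zero x
  have e1 : idealAfter x 1 = Ideal.span {x 0} := by
    rw [idealAfter_succ, e0, bot_sup_eq]
  have h0 : x 0 ≠ 0 := by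
    have := hA 0 (by simp) (by rw [e0]; exact bot_ne_top)
    rw [e0] at this
    exact this
  by_cases hu : IsUnit (x 0)
  · refine ⟨0, by simp, by rw [e0]; exact bot_ne_top, ?_, by omega⟩
    rw [zero_add, e1]
    exact Ideal.span_singleton_eq_top.2 hu
  · have h1 : idealAfter x 1 ≠ ⊤ := by
      rw [e1, Ne, Ideal.span_singleton_eq_top]; exact hu
    have hx1 := hB 1 (by simp) h1
    have hx1' : x 1 = β (x 0) := by
      rw [hx1]; simp
    obtain ⟨h2, h3⟩ := hβ' (x 0) h0 hu
    have e2 : idealAfter x 2 = Ideal.span {x 0} ⊔ Ideal.span {β (x 0)} := by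
      rw [idealAfter_succ, e1, hx1']
    have h4 := hA 2 (by simp) (by rw [e2]; exact h3.ne_top)
    refine ⟨2, by simp, by rw [e2]; exact h3.ne_top, ?_, ?_⟩
    · rw [idealAfter_succ, e2]
      rw [e2] at h4
      apply h3.out.2
      refine lt_of_le_of_ne le_sup_left ?_
      intro heq
      apply h4
      rw [heq]
      exact Ideal.mem_sup_right (Ideal.mem_span_singleton_self _)
    · intro m hm hodd
      have : m = 1 := by
        interval_cases m
        · simp at hodd
        · rfl
      rw [this, e1, hx1']
      exact h2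

/-- For every `n` there is a Noetherian domain of Krull dimension `n` on which player `B` has a
winning strategy in the Ideal Chomp Game. -/
theorem result (n : ℕ) : ∃ (R : Type) (_ : CommRing R), IsDomain R ∧ IsNoetherianRing R ∧
    ringKrullDim R = n ∧ BWins R := by
  rcases Nat.eq_zero_or_pos n with rfl | hn
  · refine ⟨ℚ, inferInstance, inferInstance, inferInstance, ?_, ?_⟩
    · rw [ringKrullDim_eq_zero_of_field]; simp
    · apply bWins_of_answer
      intro a h0 h1
      exact absurd (isUnit_iff_ne_zero.2 h0) h1
  · obtain ⟨R, hR, hdom, hnoeth, hdim, hans⟩ := Pool.Agent.Q238.Chomp.exists_ring n hn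
    exact ⟨R, hR, hdom, hnoeth, hdim, bWins_of_answer R hans⟩

end Pool.Agent.Results.MP_ba75bf_co.EveryDimension
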